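import Pool.Agent.R97.BD.Asm
import Pool.Agent.R97.BD.B1
import Pool.Agent.R97.BD.Mixt
import Pool.Agent.R97.BD.B4
import Pool.Agent.R97.BD.B5
import Pool.Agent.R97.BD.B6
import Pool.Agent.R97.BD.B7
import Pool.Agent.R97.BD.B8

/-!
# MP_5269d5_an: every value in `[0, M_{p,q}]` is the `s`-Beurling density of a spectrum of
`mu_{p,q}`

The notions are those of `Pool/Agent/R97/BD/Defs.lean` (`IsSelfSim`, `IsSpectrum`,
`upperDensity`).
-/

open MeasureTheory
open scoped ENNReal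

namespace Pool.Agent.Results.MP_5269d5_an.IntermediateDensities

open Pool.Agent.R97.BD

/-- For all integers `q ≥ 2`, `q ∣ p`, `q < p`, for the self-similar probability measure
`μ = (1/q) sum_{j<q} μ ∘ f_j⁻¹`, `f_j x = (x + (p/q) j)/p`, and for every real
`0 ≤ d ≤ (2 (p-1)/(q-1))^s`, `s = log q / log p`, there is a spectrum `Λ` of `μ` with
`D_s^+(Λ) = d`. -/
theorem result (p q : ℕ) (hq : 2 ≤ q) (hqp : q ∣ p) (hlt : q < p) (μ : Measure ℝ)
    [IsProbabilityMeasure μ]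
    (hμ : μ = ∑ j ∈ Finset.range q,
      (q : ℝ≥0∞)⁻¹ • μ.map (fun x : ℝ => (x + (p : ℝ) / q * j) / p))
    (d : ℝ) (hd0 : 0 ≤ d)
    (hd1 : d ≤ (2 * ((p - 1 : ℝ) / (q - 1))) ^ (Real.log q / Real.log p)) :
    ∃ Λ : Set ℝ, IsSpectrum μ Λ ∧
      upperDensity (Real.log q / Real.log p) Λ = ENNReal.ofReal d :=
  assembly b1 b2 b3 b4 b5 b6 b7 b8 p q μ hq hqp hlt hμ d hd0 hd1

end Pool.Agent.Results.MP_5269d5_an.IntermediateDensities
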